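import Pool.Agent.H848R3.RI.Final

set_option autoImplicit false
set_option linter.unusedSectionVars false
set_option linter.unusedVariables false
open Topology Filter Set MeasureTheory

namespace Pool.Agent.H324.RP

open Pool.Agent.H848R3.RI

noncomputable section

/-- two disjoint copies of a network -/
abbrev dblNet (N : Network) : Network where
  Node := Bool × N.Node
  Arrow := Bool × N.Arrow
  NType := N.NType
  AType := N.AType
  SType := N.SType
  head := fun e => (e.1, N.head e.2)
  tail := fun e => (e.1, N.tail e.2)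
  ntype := fun c => N.ntype c.2
  atype := fun e => N.atype e.2
  stype := N.stype
  head_type := fun e e' h => N.head_type e.2 e'.2 h
  tail_type := fun e e' h => N.tail_type e.2 e'.2 h

variable {N : Network} {V : N.SType → Type} [∀ τ, NormedAddCommGroup (V τ)]
  [∀ τ, NormedSpace ℝ (V τ)]

def inEquiv (i : Bool) (a : N.Node) : (dblNet N).In (i, a) ≃ N.In a where
  toFun := fun e => ⟨e.1.2, congrArg Prod.snd e.2⟩
  invFun := fun e => ⟨(i, e.1), Prod.ext rfl e.2⟩
  left_inv := fun e => Subtype.ext (Prod.ext (congrArg Prod.fst e.2).symm rfl)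
  right_inv := fun e => rfl

def liftIso (i j : Bool) {a b : N.Node} (β : InputIso N a b) :
    InputIso (dblNet N) (i, a) (j, b) where
  toEquiv := (inEquiv i a).trans (β.toEquiv.trans (inEquiv j b).symm)
  node := β.node
  arr := fun e => β.arr (inEquiv i a e)

def dropIso (i j : Bool) {a b : N.Node} (β : InputIso (dblNet N) (i, a) (j, b)) :
    InputIso N a b where
  toEquiv := (inEquiv i a).symm.trans (β.toEquiv.trans (inEquiv j b))
  node := β.node
  arr := fun e => β.arr ((inEquiv i a).symm e)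

/-- the doubled field -/
def dblF (f : Ph N V → Ph N V) : Ph (dblNet N) V → Ph (dblNet N) V :=
  fun z c => f (fun a => z (c.1, a)) c.2

lemma dblF_adm {f : Ph N V → Ph N V} (hf : Admissible f) : Admissible (dblF f) where
  smooth := by
    rw [contDiff_pi]
    rintro ⟨i, a⟩
    have h1 : ContDiff ℝ 1 (fun z : Ph (dblNet N) V => (fun a => z (i, a) : Ph N V)) := by
      rw [contDiff_pi]
      intro a
      exact (ContinuousLinearMap.proj (R := ℝ) (φ := fun c : (dblNet N).Node =>
        V ((dblNet N).sp c)) ((i, a) : (dblNet N).Node)).contDiff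
    have h2 := hf.smooth.comp h1
    exact (contDiff_pi.1 h2) a
  comp := by
    rintro ⟨i, a⟩ ⟨j, b⟩ β x y h1 h2
    refine hf.comp a b (dropIso i j β) (fun a => x (i, a)) (fun b => y (j, b)) h1 fun e => ?_
    have h3 := h2 ((inEquiv i a).symm e)
    have h4 : (β.toEquiv ((inEquiv i a).symm e)).1.1 = j :=
      congrArg Prod.fst (β.toEquiv ((inEquiv i a).symm e)).2
    have h5 : (dblNet N).tail (β.toEquiv ((inEquiv i a).symm e)).1 =
        (j, N.tail ((dropIso i j β).toEquiv e).1) := Prod.ext h4 rfl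
    rw [h5] at h3
    exact h3

/-- the doubled orbit: the second copy is shifted by `θ` -/
def dblX (x : ℝ → Ph N V) (θ : ℝ) : ℝ → Ph (dblNet N) V :=
  fun t c => x (t + if c.1 then θ else 0) c.2

/-- Cross invariance: if the relations between the states at the times `t₀` and `t₀ + θ` are
balanced, they hold at all times. -/
lemma cross_invariant [∀ τ, FiniteDimensional ℝ (V τ)] {f₁ : Ph N V → Ph N V}
    {x₁ : ℝ → Ph N V} {T₁ t₀ θ : ℝ} (hf : Admissible f₁) (ho : PerOrb f₁ x₁ T₁)
    (h0 : ∀ a b, st (x₁ t₀) a = st (x₁ t₀) b → Match (x₁ t₀) a b)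
    (h1 : ∀ a b, st (x₁ (t₀ + θ)) a = st (x₁ (t₀ + θ)) b → Match (x₁ (t₀ + θ)) a b)
    (h2 : ∀ a b, st (x₁ t₀) a = st (x₁ (t₀ + θ)) b → ∃ β : InputIso N a b, ∀ e : N.In a,
      st (x₁ t₀) (N.tail e.1) = st (x₁ (t₀ + θ)) (N.tail (β.toEquiv e).1))
    (a b : N.Node) (hab : st (x₁ t₀) a = st (x₁ (t₀ + θ)) b) (t : ℝ) :
    st (x₁ t) a = st (x₁ (t + θ)) b := by
  have hz : ∀ (s : ℝ) (a : N.Node), st (dblX x₁ θ s) ((false, a) : (dblNet N).Node) =
      st (x₁ s) a := by
    intro s a
    change (⟨N.sp a, x₁ (s + 0) a⟩ : Σ τ, V τ) = ⟨N.sp a, x₁ s a⟩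
    rw [add_zero]
  have hw : ∀ (s : ℝ) (a : N.Node), st (dblX x₁ θ s) ((true, a) : (dblNet N).Node) =
      st (x₁ (s + θ)) a := fun s a => rfl
  have hcross : ∀ a b, st (dblX x₁ θ t₀) ((false, a) : (dblNet N).Node) =
      st (dblX x₁ θ t₀) ((true, b) : (dblNet N).Node) →
      Match (N := dblNet N) (dblX x₁ θ t₀) (false, a) (true, b) := by
    intro a b h
    rw [hz, hw] at h
    obtain ⟨β, hβ⟩ := h2 a b h
    refine ⟨liftIso false true β, ?_⟩
    rintro ⟨⟨i, e⟩, he⟩
    obtain rfl : i = false := congrArg Prod.fst he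
    obtain rfl : N.head e = a := congrArg Prod.snd he
    have h3 := hβ ⟨e, rfl⟩
    change st (dblX x₁ θ t₀) ((false, N.tail e) : (dblNet N).Node) = st (dblX x₁ θ t₀)
      ((true, N.tail (β.toEquiv ⟨e, rfl⟩).1) : (dblNet N).Node)
    rw [hz, hw]
    exact h3
  have hM : ∀ c d : (dblNet N).Node, st (dblX x₁ θ t₀) c = st (dblX x₁ θ t₀) d →
      Match (N := dblNet N) (dblX x₁ θ t₀) c d := by
    rintro ⟨i, a⟩ ⟨j, b⟩ h
    cases i <;> cases j
    · rw [hz, hz] at h
      obtain ⟨β, hβ⟩ := h0 a b h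
      refine ⟨liftIso false false β, ?_⟩
      rintro ⟨⟨i, e⟩, he⟩
      obtain rfl : i = false := congrArg Prod.fst he
      obtain rfl : N.head e = a := congrArg Prod.snd he
      have h3 := hβ ⟨e, rfl⟩
      change st (dblX x₁ θ t₀) ((false, N.tail e) : (dblNet N).Node) = st (dblX x₁ θ t₀)
        ((false, N.tail (β.toEquiv ⟨e, rfl⟩).1) : (dblNet N).Node)
      rw [hz, hz]
      exact h3
    · exact hcross a b h
    · exact Match.symm (hcross b a h.symm)
    · rw [hw, hw] at h
      obtain ⟨β, hβ⟩ := h1 a b h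
      refine ⟨liftIso true true β, ?_⟩
      rintro ⟨⟨i, e⟩, he⟩
      obtain rfl : i = true := congrArg Prod.fst he
      obtain rfl : N.head e = a := congrArg Prod.snd he
      have h3 := hβ ⟨e, rfl⟩
      change st (dblX x₁ θ t₀) ((true, N.tail e) : (dblNet N).Node) = st (dblX x₁ θ t₀)
        ((true, N.tail (β.toEquiv ⟨e, rfl⟩).1) : (dblNet N).Node)
      rw [hw, hw]
      exact h3
  have hsol : ∀ t, HasDerivAt (dblX x₁ θ) (dblF f₁ (dblX x₁ θ t)) t := by
    intro t
    rw [hasDerivAt_pi]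
    rintro ⟨i, a⟩
    have h3 := (ho.sol (t + if i then θ else 0)).comp_add_const t (if i then θ else 0)
    exact (hasDerivAt_pi.1 h3) a
  have hper : ∀ t, dblX x₁ θ (t + T₁) = dblX x₁ θ t := by
    intro t
    funext c
    change x₁ (t + T₁ + if c.1 then θ else 0) c.2 = x₁ (t + if c.1 then θ else 0) c.2
    have : t + T₁ + (if c.1 then θ else 0) = (t + if c.1 then θ else 0) + T₁ := by ring
    rw [this, ho.per]
  have hfin := invariant (N := dblNet N) (dblF_adm hf) hsol hper ho.pos hM (false, a) (true, b)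
    (by rw [hz, hw]; exact hab) t
  rw [hz, hw] at hfin
  exact hfin

end

end Pool.Agent.H324.RP
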