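import Pool.Agent.H324.RP.Two

set_option autoImplicit false
set_option linter.unusedSectionVars false
set_option linter.unusedVariables false
open Topology Filter Set MeasureTheory

namespace Pool.Agent.H324.RP

open Pool.Agent.H848R3.RI

noncomputable section

variable {N : Network} {V : N.SType → Type} [∀ τ, NormedAddCommGroup (V τ)]
  [∀ τ, NormedSpace ℝ (V τ)]

/-- A cross relation that fails on `x` fails on all curves close to `x`. -/
lemma sep_one {x : ℝ → Ph N V} {T ρ : ℝ} (hc : Continuous x) (hper : ∀ t, x (t + T) = x t)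
    (hT : 0 < T) (hρ0 : 0 ≤ ρ) (hρ1 : ρ < 1) (a b : N.Node) (t : ℝ)
    (ht : st (x t) a ≠ st (x (t + ρ * T)) b) :
    ∃ η > 0, ∀ (x' : ℝ → Ph N V) (T' : ℝ), (∀ t, x' (t + T') = x' t) → |T' - T| < η →
      (∀ t ∈ Icc 0 T, ‖x' t - x t‖ < η) → ∃ s, st (x' s) a ≠ st (x' (s + ρ * T')) b := by
  have hO : IsOpen {t : ℝ | st (x t) a ≠ st (x (t + ρ * T)) b} := by
    have h1 : Continuous (fun t : ℝ => (x t, x (t + ρ * T))) :=
      hc.prodMk (hc.comp (continuous_id.add continuous_const))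
    exact (isClosed_st2 (V := V) a b).isOpen_compl.preimage h1
  have hp : Function.Periodic x T := hper
  -- reduce to `[0, T)`
  obtain ⟨t', ht'1, ht'2, ht'3⟩ : ∃ t', 0 ≤ t' ∧ t' < T ∧
      st (x t') a ≠ st (x (t' + ρ * T)) b := by
    refine ⟨t - ⌊t / T⌋ * T, ?_, ?_, ?_⟩
    · have := Int.floor_le (t / T)
      rw [le_div_iff₀ hT] at this
      linarith
    · have := Int.lt_floor_add_one (t / T)
      rw [div_lt_iff₀ hT] at this
      linarith
    · have e1 : x (t - ⌊t / T⌋ * T) = x t := hp.sub_int_mul_eq _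
      have e2 : x (t - ⌊t / T⌋ * T + ρ * T) = x (t + ρ * T) := by
        have : t - ⌊t / T⌋ * T + ρ * T = (t + ρ * T) - ⌊t / T⌋ * T := by ring
        rw [this]
        exact hp.sub_int_mul_eq _
      rw [e1, e2]
      exact ht
  obtain ⟨ε, hε, hball⟩ := Metric.isOpen_iff.1 hO t' ht'3
  have hring : (1 - ρ) * T = T - ρ * T := by ring
  have hρT : 0 ≤ ρ * T := mul_nonneg hρ0 hT.le
  have hρT1 : ρ * T < T := by
    have := mul_pos (sub_pos.2 hρ1) hT
    linarith
  -- a point where both times are inside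
  obtain ⟨u, s₁, hu0, huT, hsep, hs0, hsT, hxs, hfol⟩ : ∃ u s₁ : ℝ, 0 < u ∧ u < T ∧
      st (x u) a ≠ st (x (u + ρ * T)) b ∧ 0 < s₁ ∧ s₁ < T ∧ x (u + ρ * T) = x s₁ ∧
      ∀ (x' : ℝ → Ph N V) (T' : ℝ), (∀ t, x' (t + T') = x' t) →
        ∃ s', x' (u + ρ * T') = x' s' ∧ |s' - s₁| ≤ |T' - T| := by
    have hin : ∀ u, t' < u → u < t' + ε → st (x u) a ≠ st (x (u + ρ * T)) b := by
      intro u h1 h2
      apply hball
      rw [Metric.mem_ball, Real.dist_eq, abs_lt]
      constructor <;> linarith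
    by_cases hcase : t' < (1 - ρ) * T
    · obtain ⟨u, h1, h2⟩ := exists_between (lt_min (show t' < t' + ε by linarith) hcase)
      have h3 := h2.trans_le (min_le_left _ _)
      have h4 := h2.trans_le (min_le_right _ _)
      refine ⟨u, u + ρ * T, by linarith, by linarith, hin u h1 h3, by linarith, by linarith, rfl,
        fun x' T' hx' => ⟨u + ρ * T', rfl, ?_⟩⟩
      have e1 : u + ρ * T' - (u + ρ * T) = ρ * (T' - T) := by ring
      rw [e1, abs_mul, abs_of_nonneg hρ0]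
      exact mul_le_of_le_one_left (abs_nonneg _) hρ1.le
    · push Not at hcase
      obtain ⟨u, h1, h2⟩ := exists_between (lt_min (show t' < t' + ε by linarith) ht'2)
      have h3 := h2.trans_le (min_le_left _ _)
      have h4 := h2.trans_le (min_le_right _ _)
      refine ⟨u, u + ρ * T - T, by linarith, h4, hin u h1 h3, by linarith, by linarith, ?_,
        fun x' T' hx' => ⟨u + ρ * T' - T', ?_, ?_⟩⟩
      · rw [← hper (u + ρ * T - T), sub_add_cancel]
      · rw [← hx' (u + ρ * T' - T'), sub_add_cancel]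
      · have e1 : u + ρ * T' - T' - (u + ρ * T - T) = -((1 - ρ) * (T' - T)) := by ring
        rw [e1, abs_neg, abs_mul, abs_of_nonneg (by linarith : (0:ℝ) ≤ 1 - ρ)]
        exact mul_le_of_le_one_left (abs_nonneg _) (by linarith)
  rw [hxs] at hsep
  obtain ⟨r, hr, hrb⟩ := Metric.isOpen_iff.1 (isClosed_st2 (V := V) a b).isOpen_compl
    (x u, x s₁) hsep
  obtain ⟨κ, hκ, hxκ⟩ := Metric.continuousAt_iff.1 (hc.continuousAt (x := s₁)) (r / 2)
    (half_pos hr)
  refine ⟨min (r / 2) (min κ (min s₁ (T - s₁))), lt_min (half_pos hr) (lt_min hκ (lt_min hs0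
    (by linarith))), fun x' T' hx' hT' hclose => ?_⟩
  have g1 := lt_min_iff.1 hT'
  have g2 := lt_min_iff.1 g1.2
  have g3 := lt_min_iff.1 g2.2
  obtain ⟨s', hs'1, hs'2⟩ := hfol x' T' hx'
  refine ⟨u, ?_⟩
  rw [hs'1]
  have hs'3 : |s' - s₁| < κ := hs'2.trans_lt g2.1
  have hs'4 := abs_lt.1 (hs'2.trans_lt g3.1)
  have hs'5 := abs_lt.1 (hs'2.trans_lt g3.2)
  have a1 := (hclose u ⟨hu0.le, huT.le⟩).trans_le (min_le_left _ _)
  have a2 := (hclose s' ⟨by linarith [hs'4.1], by linarith [hs'5.2]⟩).trans_le (min_le_left _ _)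
  have a3 : ‖x s' - x s₁‖ < r / 2 := by
    rw [← dist_eq_norm]
    apply hxκ
    rw [Real.dist_eq]
    exact hs'3
  have a4 := norm_sub_le_norm_sub_add_norm_sub (x' s') (x s') (x s₁)
  have h5 : (x' u, x' s') ∈ Metric.ball (x u, x s₁) r := by
    rw [Metric.mem_ball, dist_eq_norm]
    change ‖(x' u - x u, x' s' - x s₁)‖ < r
    rw [Prod.norm_mk, max_lt_iff]
    exact ⟨by linarith, by linarith⟩
  exact hrb h5

lemma sep_all {x : ℝ → Ph N V} {T ρ : ℝ} (hc : Continuous x) (hper : ∀ t, x (t + T) = x t)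
    (hT : 0 < T) (hρ0 : 0 ≤ ρ) (hρ1 : ρ < 1) :
    ∃ η > 0, ∀ (x' : ℝ → Ph N V) (T' : ℝ), (∀ t, x' (t + T') = x' t) → |T' - T| < η →
      (∀ t ∈ Icc 0 T, ‖x' t - x t‖ < η) → ∀ a b : N.Node,
        (∀ t, st (x' t) a = st (x' (t + ρ * T')) b) → ∀ t, st (x t) a = st (x (t + ρ * T)) b := by
  classical
  have h1 : ∀ p : N.Node × N.Node, ∃ η > 0, ∀ (x' : ℝ → Ph N V) (T' : ℝ),
      (∀ t, x' (t + T') = x' t) → |T' - T| < η → (∀ t ∈ Icc 0 T, ‖x' t - x t‖ < η) →
        (∀ t, st (x' t) p.1 = st (x' (t + ρ * T')) p.2) →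
          ∀ t, st (x t) p.1 = st (x (t + ρ * T)) p.2 := by
    rintro ⟨a, b⟩
    by_cases hab : ∀ t, st (x t) a = st (x (t + ρ * T)) b
    · exact ⟨1, one_pos, fun _ _ _ _ _ _ => hab⟩
    · push Not at hab
      obtain ⟨t, ht⟩ := hab
      obtain ⟨η, hη, h2⟩ := sep_one hc hper hT hρ0 hρ1 a b t ht
      refine ⟨η, hη, fun x' T' h3 h4 h5 h6 => ?_⟩
      obtain ⟨s, hs⟩ := h2 x' T' h3 h4 h5
      exact absurd (h6 s) hs
  choose η hη hη2 using h1
  rcases isEmpty_or_nonempty (N.Node × N.Node) with he | hne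
  · exact ⟨1, one_pos, fun x' T' _ _ _ a b => (he.false (a, b)).elim⟩
  · obtain ⟨p₀, hp₀⟩ := Finite.exists_min η
    exact ⟨η p₀, hη p₀, fun x' T' h1 h2 h3 a b => hη2 (a, b) x' T' h1 (h2.trans_le (hp₀ (a, b)))
      fun t ht => (h3 t ht).trans_le (hp₀ (a, b))⟩

/-- **Rigid phase theorem**: all pairs of nodes that are phase-related with relative shift `ρ` on
all `δ`-small deformations belong to one balanced relation all of whose pairs are phase-related. -/
theorem rigid_phase [∀ τ, FiniteDimensional ℝ (V τ)] [∀ τ, Nontrivial (V τ)]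
    {f : Ph N V → Ph N V} {x : ℝ → Ph N V} {T δ : ℝ} (hf : Admissible f) (hx : PerOrb f x T)
    (hnd : NDeg f x T) (hδ : 0 < δ) (ρ : ℝ) :
    ∃ R : N.Node → N.Node → Prop,
      (∀ c d, (∀ (h : Ph N V → Ph N V) (x' : ℝ → Ph N V) (T' : ℝ), SmAdm h →
        (∀ z, ‖h z‖ < δ ∧ ‖fderiv ℝ h z‖ < δ) → PerOrb (fun z => f z + h z) x' T' →
        |T' - T| < δ → (∀ t ∈ Icc 0 T, ‖x' t - x t‖ < δ) →
        ∀ t, st (x' t) c = st (x' (t + ρ * T')) d) → R c d) ∧
      (∀ a b, R a b → ∀ t, st (x t) a = st (x (t + ρ * T)) b) ∧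
      (∀ a b, R a b → ∃ β : InputIso N a b, ∀ e : N.In a,
        R (N.tail e.1) (N.tail (β.toEquiv e).1)) ∧ (ρ = 0 → Equivalence R) := by
  obtain ⟨ρ', hρ'⟩ : ∃ ρ', ρ' = Int.fract ρ := ⟨_, rfl⟩
  have hρ0 : 0 ≤ ρ' := by rw [hρ']; exact Int.fract_nonneg _
  have hρ1 : ρ' < 1 := by rw [hρ']; exact Int.fract_lt_one _
  have hred : ∀ (x' : ℝ → Ph N V) (T' : ℝ), (∀ t, x' (t + T') = x' t) → ∀ t,
      x' (t + ρ * T') = x' (t + ρ' * T') := by
    intro x' T' hper t
    have hp : Function.Periodic x' T' := hper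
    have h5 : t + ρ * T' = (t + ρ' * T') + ⌊ρ⌋ * T' := by
      rw [hρ', Int.fract]; ring
    rw [h5, hp.int_mul ⌊ρ⌋]
  obtain ⟨η, hη, hsep⟩ := sep_all hx.continuous hx.per hx.pos hρ0 hρ1
  obtain ⟨δ₁, hδ₁⟩ : ∃ δ₁, δ₁ = min δ η := ⟨_, rfl⟩
  have hδ₁0 : 0 < δ₁ := by rw [hδ₁]; exact lt_min hδ hη
  have hle1 : δ₁ ≤ δ := by rw [hδ₁]; exact min_le_left _ _
  have hle2 : δ₁ ≤ η := by rw [hδ₁]; exact min_le_right _ _
  have hC : Cls f x T δ₁ f x T :=
    { adm := hf
      dif := by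
        have h0 : (fun z => f z - f z) = fun _ : Ph N V => (0 : Ph N V) := by
          funext z; exact sub_self _
        rw [h0]; exact SmAdm.zero
      near := ⟨0, hδ₁0, fun z => by simp⟩
      orb := hx
      nd := hnd
      per := by simpa using hδ₁0
      close := fun t _ => by simpa using hδ₁0 }
  obtain ⟨f₁, x₁, T₁, t₀, hM⟩ := exists_tmax (ρ := ρ') hC hρ1
  obtain ⟨m0, m1, m2⟩ := cross_match hx.continuous hf.smooth hM hρ0 hρ1
  refine ⟨fun a b => st (x₁ t₀) a = st (x₁ (t₀ + ρ' * T₁)) b, ?_, ?_, m2, ?_⟩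
  · intro c d hrig
    have hc := hM.cls
    have he : (fun z => f z + (f₁ z - f z)) = f₁ := by funext z; abel
    obtain ⟨δ', h1, h2⟩ := hc.near
    change st (x₁ t₀) c = st (x₁ (t₀ + ρ' * T₁)) d
    rw [← hred x₁ T₁ hc.orb.per]
    refine hrig (fun z => f₁ z - f z) x₁ T₁ hc.dif
      (fun z => ⟨(h2 z).1.trans_lt (h1.trans_le hle1), ?_⟩)
      (by rw [he]; exact hc.orb) (hc.per.trans_le hle1)
      (fun t ht => (hc.close t ht).trans_le hle1) t₀
    have d1 := (hc.adm.smooth.differentiable one_ne_zero z).hasFDerivAt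
    have d2 := (hf.smooth.differentiable one_ne_zero z).hasFDerivAt
    have d3 : fderiv ℝ (fun z => f₁ z - f z) z = fderiv ℝ f₁ z - fderiv ℝ f z :=
      (d1.sub d2).fderiv
    rw [d3]
    exact (h2 z).2.trans_lt (h1.trans_le hle1)
  · intro a b hab t
    rw [hred x T hx.per]
    exact hsep x₁ T₁ hM.cls.orb.per (hM.cls.per.trans_le hle2)
      (fun t ht => (hM.cls.close t ht).trans_le hle2) _ _
      (cross_invariant hM.cls.adm hM.cls.orb m0 m1 m2 _ _ hab) t
  · intro hρ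
    have h0 : ρ' = 0 := by rw [hρ', hρ, Int.fract_zero]
    rw [h0, zero_mul, add_zero]
    exact ⟨fun _ => rfl, fun h => h.symm, fun h h' => h.trans h'⟩

/-- The `T`-periodic solution `x` of `x' = f(x)` is nondegenerate: `1` is a simple Floquet
multiplier (a simple root of the characteristic polynomial of `Φ(T)`, where `Φ` is the fundamental
solution with `Φ(0) = id` of the variational equation along `x`). -/
def Nondegenerate {E : Type} [NormedAddCommGroup E] [NormedSpace ℝ E] [FiniteDimensional ℝ E]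
    (f : E → E) (x : ℝ → E) (T : ℝ) : Prop :=
  ∃ Φ : ℝ → E →L[ℝ] E, IsFund f x Φ ∧ (Φ T : E →ₗ[ℝ] E).charpoly.rootMultiplicity 1 = 1

lemma Nondegenerate.nDeg {E : Type} [NormedAddCommGroup E] [NormedSpace ℝ E]
    [FiniteDimensional ℝ E] {f : E → E} (hf : ContDiff ℝ 1 f)
    {x : ℝ → E} {T : ℝ} (h : PerOrb f x T) (hh : Nondegenerate f x T) : NDeg f x T := by
  obtain ⟨Φ, hΦ, hm⟩ := hh
  refine ⟨Φ, hΦ, ?_⟩
  set v := f (x 0) with hv
  have hv0 : v ≠ 0 := h.ne
  set A : Module.End ℝ E := (Φ T : E →ₗ[ℝ] E) with hA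
  -- the velocity is a fixed vector
  have hfix : Φ T v = v := by
    have hcd : Continuous (fun t => fderiv ℝ f (x t)) :=
      (hf.continuous_fderiv one_ne_zero).comp h.continuous
    obtain ⟨K, hK⟩ := (isCompact_Icc (a := (0:ℝ)) (b := T)).exists_bound_of_continuousOn
      hcd.continuousOn
    have h1 := lin_zero (A := fun t => fderiv ℝ f (x t)) (K := K) (T := T) hK
      (w := fun t => Φ t v - f (x t)) (fun t _ => by
        have h2 := (hf.differentiable one_ne_zero (x t)).hasFDerivAt.comp_hasDerivAt t (h.sol t)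
        have h3 := (hΦ.2 v t).sub h2
        rw [← map_sub] at h3
        exact h3) (by
        change Φ 0 v - f (x 0) = 0
        rw [hΦ.1, hv, sub_self]) T ⟨h.pos.le, le_rfl⟩
    have h4 : x T = x 0 := by
      have := h.per 0
      rwa [zero_add] at this
    change Φ T v - f (x T) = 0 at h1
    rw [h4, ← hv, sub_eq_zero] at h1
    exact h1
  have hfix' : A v = v := hfix
  have hfr : Module.finrank ℝ (A.maxGenEigenspace 1) = 1 := by
    rw [LinearMap.finrank_maxGenEigenspace_eq]; exact hm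
  have hvm : v ∈ A.maxGenEigenspace 1 := by
    rw [Module.End.mem_maxGenEigenspace]
    refine ⟨1, ?_⟩
    rw [pow_one, one_smul, LinearMap.sub_apply, Module.End.one_apply, hfix', sub_self]
  have hspan : ∀ u ∈ A.maxGenEigenspace 1, ∃ c : ℝ, c • v = u := by
    intro u hu
    obtain ⟨c, hc⟩ := (finrank_eq_one_iff_of_nonzero' (⟨v, hvm⟩ : A.maxGenEigenspace 1)
      (fun h => hv0 (congrArg Subtype.val h))).1 hfr ⟨u, hu⟩
    exact ⟨c, congrArg Subtype.val hc⟩
  obtain ⟨ℓ, hℓ⟩ : ∃ ℓ : E →L[ℝ] ℝ, ℓ v ≠ 0 := by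
    obtain ⟨g, -, hg⟩ := exists_dual_vector ℝ v (norm_ne_zero_iff.2 hv0)
    exact ⟨g, by rw [hg]; simpa using hv0⟩
  refine ⟨ℓ, fun u s hus hu => ?_⟩
  have h1 : A u - u = -(s • v) := by
    rw [eq_neg_iff_add_eq_zero]; exact hus
  have hum : u ∈ A.maxGenEigenspace 1 := by
    rw [Module.End.mem_maxGenEigenspace]
    refine ⟨2, ?_⟩
    rw [pow_two, Module.End.mul_apply, one_smul]
    have h2 : (A - 1) u = -(s • v) := by
      rw [LinearMap.sub_apply, Module.End.one_apply]; exact h1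
    rw [h2, map_neg, map_smul, LinearMap.sub_apply, Module.End.one_apply, hfix', sub_self,
      smul_zero, neg_zero]
  obtain ⟨c, hc⟩ := hspan u hum
  have hc0 : c = 0 := by
    rw [← hc, map_smul, smul_eq_mul] at hu
    rcases mul_eq_zero.1 hu with h | h
    · exact h
    · exact absurd h hℓ
  have hu0 : u = 0 := by rw [← hc, hc0, zero_smul]
  refine ⟨hu0, ?_⟩
  rw [hu0, map_zero, sub_zero, zero_eq_neg] at h1
  exact (smul_eq_zero.1 h1).resolve_right hv0

end

end Pool.Agent.H324.RP
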