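import Pool.Agent.H324.RP.LMax
import Pool.Agent.H324.RP.Kick2
import Pool.Agent.H324.RP.Dbl

set_option autoImplicit false
set_option linter.unusedSectionVars false
set_option linter.unusedVariables false
open Topology Filter Set MeasureTheory

namespace Pool.Agent.H324.RP

open Pool.Agent.H848R3.RI

noncomputable section

variable {N : Network} {V : N.SType → Type} [∀ τ, NormedAddCommGroup (V τ)]
  [∀ τ, NormedSpace ℝ (V τ)]

open Classical in
/-- number of separated cross pairs -/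
def ccnt (z z' : Ph N V) : ℕ :=
  (Finset.univ.filter fun p : N.Node × N.Node => st z p.1 ≠ st z' p.2).card

/-- total count at two times -/
def tot (f : Ph N V → Ph N V) (z z' : Ph N V) : ℕ := ccnt z z' + (cnt f z + cnt f z')

lemma tot_le (f : Ph N V → Ph N V) (z z' : Ph N V) :
    tot f z z' ≤ Fintype.card (N.Node × N.Node) +
      ((Fintype.card (N.Node × N.Node) + Fintype.card N.Node) +
      (Fintype.card (N.Node × N.Node) + Fintype.card N.Node)) := by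
  unfold tot
  exact add_le_add (Finset.card_le_univ _) (add_le_add (cnt_le _ _) (cnt_le _ _))

lemma cnt_mono {f f' : Ph N V → Ph N V} {z z' : Ph N V}
    (h1 : ∀ a b, st z a ≠ st z b → st z' a ≠ st z' b) (h2 : ∀ e, f z e ≠ 0 → f' z' e ≠ 0) :
    cnt f z ≤ cnt f' z' := by
  classical
  unfold cnt
  apply add_le_add
  · apply Finset.card_le_card
    intro p hp
    simp only [Finset.mem_filter, Finset.mem_univ, true_and] at hp ⊢
    exact h1 _ _ hp
  · apply Finset.card_le_card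
    intro p hp
    simp only [Finset.mem_filter, Finset.mem_univ, true_and] at hp ⊢
    exact h2 _ hp

lemma ccnt_mono {z z' y y' : Ph N V}
    (h1 : ∀ a b, st z a ≠ st z' b → st y a ≠ st y' b) : ccnt z z' ≤ ccnt y y' := by
  classical
  unfold ccnt
  apply Finset.card_le_card
  intro p hp
  simp only [Finset.mem_filter, Finset.mem_univ, true_and] at hp ⊢
  exact h1 _ _ hp

lemma ccnt_rigid {z z' y y' : Ph N V}
    (h1 : ∀ a b, st z a ≠ st z' b → st y a ≠ st y' b) (h3 : ccnt y y' ≤ ccnt z z') :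
    ∀ a b, st y a = st y' b ↔ st z a = st z' b := by
  classical
  have s1 : (Finset.univ.filter fun p : N.Node × N.Node => st z p.1 ≠ st z' p.2) ⊆
      (Finset.univ.filter fun p : N.Node × N.Node => st y p.1 ≠ st y' p.2) := by
    intro p hp
    simp only [Finset.mem_filter, Finset.mem_univ, true_and] at hp ⊢
    exact h1 _ _ hp
  unfold ccnt at h3
  have e1 := Finset.eq_of_subset_of_card_le s1 h3
  intro a b
  have := Finset.ext_iff.1 e1 (a, b)
  simp only [Finset.mem_filter, Finset.mem_univ, true_and] at this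
  exact (not_iff_not.1 this).symm

lemma isClosed_st2 (a b : N.Node) :
    IsClosed {p : Ph N V × Ph N V | st p.1 a = st p.2 b} := by
  by_cases h : N.sp a = N.sp b
  · have : {p : Ph N V × Ph N V | st p.1 a = st p.2 b} = {p | cst h (p.1 a) = p.2 b} := by
      ext z; exact st_of h
    rw [this]
    exact isClosed_eq ((cst h).continuous.comp ((continuous_apply a).comp continuous_fst))
      ((continuous_apply b).comp continuous_snd)
  · have : {p : Ph N V × Ph N V | st p.1 a = st p.2 b} = ∅ := by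
      ext z
      simp only [mem_ofPred_eq, mem_empty_iff_false, iff_false]
      intro h2
      exact h (st_iff.1 h2).1
    rw [this]
    exact isClosed_empty

/-- maximisers of the total count -/
structure TMx (f : Ph N V → Ph N V) (x : ℝ → Ph N V) (T δ ρ : ℝ)
    (f₁ : Ph N V → Ph N V) (x₁ : ℝ → Ph N V) (T₁ t₀ : ℝ) : Prop where
  cls : Cls f x T δ f₁ x₁ T₁
  mem : t₀ ∈ Ioo 0 ((1 - ρ) * T₁)
  max : ∀ f'' x'' T'' t'', Cls f x T δ f'' x'' T'' → t'' ∈ Ioo 0 ((1 - ρ) * T'') →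
    tot f'' (x'' t'') (x'' (t'' + ρ * T'')) ≤ tot f₁ (x₁ t₀) (x₁ (t₀ + ρ * T₁))

lemma exists_tmax {f : Ph N V → Ph N V} {x : ℝ → Ph N V} {T δ ρ : ℝ} (h : Cls f x T δ f x T)
    (hρ : ρ < 1) : ∃ f' x' T' t', TMx f x T δ ρ f' x' T' t' := by
  classical
  let P : ℕ → Prop := fun n => ∃ f' x' T' t', Cls f x T δ f' x' T' ∧
    t' ∈ Ioo 0 ((1 - ρ) * T') ∧ tot f' (x' t') (x' (t' + ρ * T')) = n
  have hpos : 0 < (1 - ρ) * T := mul_pos (by linarith) h.orb.pos
  have hP : P (tot f (x ((1 - ρ) * T / 2)) (x ((1 - ρ) * T / 2 + ρ * T))) :=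
    ⟨f, x, T, (1 - ρ) * T / 2, h, ⟨by linarith, by linarith⟩, rfl⟩
  have h1 := Nat.findGreatest_spec (P := P) (tot_le f _ _) hP
  obtain ⟨f', x', T', t', h2, h3, h4⟩ := h1
  refine ⟨f', x', T', t', h2, h3, fun f'' x'' T'' t'' h5 h6 => ?_⟩
  rw [h4]
  exact Nat.le_findGreatest (tot_le _ _ _) ⟨f'', x'', T'', t'', h5, h6, rfl⟩

/-- neighbourhoods in which nothing is lost -/
lemma exists_rad (f₁ : Ph N V → Ph N V) (z₀ z₁ : Ph N V) : ∃ r > 0, ∀ z z' v v' : Ph N V,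
    ‖z - z₀‖ < r → ‖z' - z₁‖ < r → ‖v - f₁ z₀‖ < r → ‖v' - f₁ z₁‖ < r →
    (∀ a b, st z₀ a ≠ st z₀ b → st z a ≠ st z b) ∧
    (∀ a b, st z₁ a ≠ st z₁ b → st z' a ≠ st z' b) ∧
    (∀ a b, st z₀ a ≠ st z₁ b → st z a ≠ st z' b) ∧
    (∀ e, f₁ z₀ e ≠ 0 → v e ≠ 0) ∧ (∀ e, f₁ z₁ e ≠ 0 → v' e ≠ 0) := by
  have key : ∀ᶠ p : (Ph N V × Ph N V) × (Ph N V × Ph N V) in 𝓝 ((z₀, z₁), (f₁ z₀, f₁ z₁)),
      (∀ a b, st z₀ a ≠ st z₀ b → st p.1.1 a ≠ st p.1.1 b) ∧
      (∀ a b, st z₁ a ≠ st z₁ b → st p.1.2 a ≠ st p.1.2 b) ∧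
      (∀ a b, st z₀ a ≠ st z₁ b → st p.1.1 a ≠ st p.1.2 b) ∧
      (∀ e, f₁ z₀ e ≠ 0 → p.2.1 e ≠ 0) ∧ (∀ e, f₁ z₁ e ≠ 0 → p.2.2 e ≠ 0) := by
    refine (Filter.Eventually.and ?_ (Filter.Eventually.and ?_ (Filter.Eventually.and ?_
      (Filter.Eventually.and ?_ ?_))))
    · rw [eventually_all]; intro a
      rw [eventually_all]; intro b
      by_cases h : st z₀ a = st z₀ b
      · exact Eventually.of_forall fun p h2 => absurd h h2
      · have h1 : {z : Ph N V | st z a = st z b}ᶜ ∈ 𝓝 z₀ :=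
          (isClosed_st a b).isOpen_compl.mem_nhds h
        have h2 : Tendsto (fun p : (Ph N V × Ph N V) × (Ph N V × Ph N V) => p.1.1)
            (𝓝 ((z₀, z₁), (f₁ z₀, f₁ z₁))) (𝓝 z₀) :=
          (continuous_fst.comp continuous_fst).tendsto _
        filter_upwards [h2.eventually_mem h1] with p hp _
        exact hp
    · rw [eventually_all]; intro a
      rw [eventually_all]; intro b
      by_cases h : st z₁ a = st z₁ b
      · exact Eventually.of_forall fun p h2 => absurd h h2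
      · have h1 : {z : Ph N V | st z a = st z b}ᶜ ∈ 𝓝 z₁ :=
          (isClosed_st a b).isOpen_compl.mem_nhds h
        have h2 : Tendsto (fun p : (Ph N V × Ph N V) × (Ph N V × Ph N V) => p.1.2)
            (𝓝 ((z₀, z₁), (f₁ z₀, f₁ z₁))) (𝓝 z₁) :=
          (continuous_snd.comp continuous_fst).tendsto _
        filter_upwards [h2.eventually_mem h1] with p hp _
        exact hp
    · rw [eventually_all]; intro a
      rw [eventually_all]; intro b
      by_cases h : st z₀ a = st z₁ b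
      · exact Eventually.of_forall fun p h2 => absurd h h2
      · have h1 : {p : Ph N V × Ph N V | st p.1 a = st p.2 b}ᶜ ∈ 𝓝 (z₀, z₁) :=
          (isClosed_st2 a b).isOpen_compl.mem_nhds h
        have h2 : Tendsto (fun p : (Ph N V × Ph N V) × (Ph N V × Ph N V) => p.1)
            (𝓝 ((z₀, z₁), (f₁ z₀, f₁ z₁))) (𝓝 (z₀, z₁)) := continuous_fst.tendsto _
        filter_upwards [h2.eventually_mem h1] with p hp _
        exact hp
    · rw [eventually_all]; intro e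
      by_cases h : f₁ z₀ e = 0
      · exact Eventually.of_forall fun p h2 => absurd h h2
      · have h1 : ContinuousAt (fun p : (Ph N V × Ph N V) × (Ph N V × Ph N V) => p.2.1 e)
            ((z₀, z₁), (f₁ z₀, f₁ z₁)) :=
          ((continuous_apply e).comp (continuous_fst.comp continuous_snd)).continuousAt
        filter_upwards [h1.eventually_ne h] with p hp _
        exact hp
    · rw [eventually_all]; intro e
      by_cases h : f₁ z₁ e = 0
      · exact Eventually.of_forall fun p h2 => absurd h h2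
      · have h1 : ContinuousAt (fun p : (Ph N V × Ph N V) × (Ph N V × Ph N V) => p.2.2 e)
            ((z₀, z₁), (f₁ z₀, f₁ z₁)) :=
          ((continuous_apply e).comp (continuous_snd.comp continuous_snd)).continuousAt
        filter_upwards [h1.eventually_ne h] with p hp _
        exact hp
  obtain ⟨r, hr, h⟩ := Metric.eventually_nhds_iff_ball.1 key
  refine ⟨r, hr, fun z z' v v' h1 h2 h3 h4 => h ((z, z'), (v, v')) ?_⟩
  rw [Metric.mem_ball, dist_eq_norm]
  change ‖((z - z₀, z' - z₁), (v - f₁ z₀, v' - f₁ z₁))‖ < r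
  rw [Prod.norm_mk, Prod.norm_mk, Prod.norm_mk, max_lt_iff, max_lt_iff, max_lt_iff]
  exact ⟨⟨h1, h2⟩, ⟨h3, h4⟩⟩

section

variable {f f₁ : Ph N V → Ph N V} {x x₁ : ℝ → Ph N V} {T δ ρ T₁ t₀ : ℝ}

lemma stab (hM : TMx f x T δ ρ f₁ x₁ T₁ t₀) (hρ0 : 0 ≤ ρ) (hρ1 : ρ < 1) :
    ∃ η > 0, ∀ f'' x'' T'' t'', Cls f x T δ f'' x'' T'' → |t'' - t₀| < η → |T'' - T₁| < η →
      (∀ z, ‖f'' z - f₁ z‖ < η) → (∀ t ∈ Icc (-(T₁ + 2)) (T₁ + 2), ‖x'' t - x₁ t‖ < η) →
      (∀ a b, st (x'' t'') a = st (x'' (t'' + ρ * T'')) b ↔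
        st (x₁ t₀) a = st (x₁ (t₀ + ρ * T₁)) b) ∧
      cnt f'' (x'' t'') ≤ cnt f₁ (x₁ t₀) ∧
      cnt f'' (x'' (t'' + ρ * T'')) ≤ cnt f₁ (x₁ (t₀ + ρ * T₁)) := by
  have hT := hM.cls.orb.pos
  have hc := hM.cls.orb.continuous
  have hfc := hM.cls.adm.smooth.continuous
  obtain ⟨t₁, ht₁⟩ : ∃ t₁, t₁ = t₀ + ρ * T₁ := ⟨_, rfl⟩
  rw [← ht₁]
  obtain ⟨r, hr, hrad⟩ := exists_rad f₁ (x₁ t₀) (x₁ t₁)
  obtain ⟨r0, hr0, hf0⟩ := Metric.continuousAt_iff.1 (hfc.continuousAt (x := x₁ t₀)) (r / 2)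
    (half_pos hr)
  obtain ⟨r1, hr1, hf1⟩ := Metric.continuousAt_iff.1 (hfc.continuousAt (x := x₁ t₁)) (r / 2)
    (half_pos hr)
  obtain ⟨r', hr'⟩ : ∃ r', r' = min r (min r0 r1) := ⟨_, rfl⟩
  have hr'0 : 0 < r' := by rw [hr']; exact lt_min hr (lt_min hr0 hr1)
  have hr'r : r' ≤ r := by rw [hr']; exact min_le_left _ _
  have hr'0' : r' ≤ r0 := by rw [hr']; exact (min_le_right _ _).trans (min_le_left _ _)
  have hr'1' : r' ≤ r1 := by rw [hr']; exact (min_le_right _ _).trans (min_le_right _ _)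
  obtain ⟨s0, hs0, hx0⟩ := Metric.continuousAt_iff.1 (hc.continuousAt (x := t₀)) (r' / 2)
    (half_pos hr'0)
  obtain ⟨s1, hs1, hx1⟩ := Metric.continuousAt_iff.1 (hc.continuousAt (x := t₁)) (r' / 2)
    (half_pos hr'0)
  have hm1 := hM.mem.1
  have hm2 := hM.mem.2
  obtain ⟨η, hη⟩ : ∃ η, η = min (1 / 4) (min (r' / 2) (min s0 (min (s1 / 2) (min t₀
    (((1 - ρ) * T₁ - t₀) / 2))))) := ⟨_, rfl⟩
  have hη0 : 0 < η := by
    rw [hη]
    refine lt_min (by norm_num) (lt_min (half_pos hr'0) (lt_min hs0 (lt_min (half_pos hs1)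
      (lt_min hm1 (half_pos (by linarith))))))
  have g1 : η ≤ 1 / 4 := by rw [hη]; exact min_le_left _ _
  have g2 : η ≤ r' / 2 := by rw [hη]; exact (min_le_right _ _).trans (min_le_left _ _)
  have g3 : η ≤ s0 := by
    rw [hη]; exact (min_le_right _ _).trans ((min_le_right _ _).trans (min_le_left _ _))
  have g4 : η ≤ s1 / 2 := by
    rw [hη]; exact (min_le_right _ _).trans ((min_le_right _ _).trans ((min_le_right _ _).trans
      (min_le_left _ _)))
  have g5 : η ≤ t₀ := by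
    rw [hη]; exact (min_le_right _ _).trans ((min_le_right _ _).trans ((min_le_right _ _).trans
      ((min_le_right _ _).trans (min_le_left _ _))))
  have g6 : η ≤ ((1 - ρ) * T₁ - t₀) / 2 := by
    rw [hη]; exact (min_le_right _ _).trans ((min_le_right _ _).trans ((min_le_right _ _).trans
      ((min_le_right _ _).trans (min_le_right _ _))))
  refine ⟨η, hη0, fun f'' x'' T'' t'' hcls h1 h2 h3 h4 => ?_⟩
  have h1' := abs_lt.1 h1
  have h2' := abs_lt.1 h2
  obtain ⟨t1, ht1⟩ : ∃ t1, t1 = t'' + ρ * T'' := ⟨_, rfl⟩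
  rw [← ht1]
  have hρT : |ρ * T'' - ρ * T₁| < η := by
    rw [← mul_sub, abs_mul, abs_of_nonneg hρ0]
    calc ρ * |T'' - T₁| ≤ 1 * |T'' - T₁| := mul_le_mul_of_nonneg_right hρ1.le (abs_nonneg _)
      _ < η := by rw [one_mul]; exact h2
  have hρT' := abs_lt.1 hρT
  have h5 : |t1 - t₁| < 2 * η := by
    rw [abs_lt, ht1, ht₁]
    constructor <;> linarith [hρT'.1, hρT'.2]
  have h5' := abs_lt.1 h5
  have hρT1 : 0 ≤ ρ * T₁ := mul_nonneg hρ0 hT.le
  have ht₁b : t₁ < T₁ := by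
    rw [ht₁]
    have : (1 - ρ) * T₁ = T₁ - ρ * T₁ := by ring
    linarith
  have hIt : t'' ∈ Icc (-(T₁ + 2)) (T₁ + 2) := by
    constructor
    · linarith [h1'.1]
    · have : (1 - ρ) * T₁ = T₁ - ρ * T₁ := by ring
      linarith [h1'.2]
  have hIt1 : t1 ∈ Icc (-(T₁ + 2)) (T₁ + 2) := by
    constructor
    · linarith [h5'.1]
    · linarith [h5'.2]
  have k0 : ‖x'' t'' - x₁ t₀‖ < r' := by
    have a1 := h4 t'' hIt
    have a2 : ‖x₁ t'' - x₁ t₀‖ < r' / 2 := by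
      rw [← dist_eq_norm]
      apply hx0
      rw [Real.dist_eq]
      linarith
    have a3 := norm_sub_le_norm_sub_add_norm_sub (x'' t'') (x₁ t'') (x₁ t₀)
    linarith
  have k1 : ‖x'' t1 - x₁ t₁‖ < r' := by
    have a1 := h4 t1 hIt1
    have a2 : ‖x₁ t1 - x₁ t₁‖ < r' / 2 := by
      rw [← dist_eq_norm]
      apply hx1
      rw [Real.dist_eq]
      linarith
    have a3 := norm_sub_le_norm_sub_add_norm_sub (x'' t1) (x₁ t1) (x₁ t₁)
    linarith
  have k2 : ‖f'' (x'' t'') - f₁ (x₁ t₀)‖ < r := by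
    have a1 := h3 (x'' t'')
    have a2 : ‖f₁ (x'' t'') - f₁ (x₁ t₀)‖ < r / 2 := by
      rw [← dist_eq_norm]
      apply hf0
      rw [dist_eq_norm]
      linarith
    have a3 := norm_sub_le_norm_sub_add_norm_sub (f'' (x'' t'')) (f₁ (x'' t'')) (f₁ (x₁ t₀))
    linarith
  have k3 : ‖f'' (x'' t1) - f₁ (x₁ t₁)‖ < r := by
    have a1 := h3 (x'' t1)
    have a2 : ‖f₁ (x'' t1) - f₁ (x₁ t₁)‖ < r / 2 := by
      rw [← dist_eq_norm]
      apply hf1
      rw [dist_eq_norm]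
      linarith
    have a3 := norm_sub_le_norm_sub_add_norm_sub (f'' (x'' t1)) (f₁ (x'' t1)) (f₁ (x₁ t₁))
    linarith
  obtain ⟨m1, m2, m3, m4, m5⟩ := hrad (x'' t'') (x'' t1) (f'' (x'' t'')) (f'' (x'' t1))
    (k0.trans_le hr'r) (k1.trans_le hr'r) k2 k3
  have hmem : t'' ∈ Ioo 0 ((1 - ρ) * T'') := by
    constructor
    · linarith [h1'.1]
    · have e1 : (1 - ρ) * T₁ = T₁ - ρ * T₁ := by ring
      have e2 : (1 - ρ) * T'' = T'' - ρ * T'' := by ring
      have e3 : |(1 - ρ) * (T'' - T₁)| < η := by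
        rw [abs_mul, abs_of_nonneg (by linarith : (0:ℝ) ≤ 1 - ρ)]
        calc (1 - ρ) * |T'' - T₁| ≤ 1 * |T'' - T₁| :=
              mul_le_mul_of_nonneg_right (by linarith) (abs_nonneg _)
          _ < η := by rw [one_mul]; exact h2
      have e4 := (abs_lt.1 e3).1
      have e5 : (1 - ρ) * (T'' - T₁) = (1 - ρ) * T'' - (1 - ρ) * T₁ := by ring
      linarith [h1'.2]
  have hmax := hM.max f'' x'' T'' t'' hcls hmem
  rw [← ht1, ← ht₁] at hmax
  have c1 := cnt_mono (f := f₁) (f' := f'') m1 m4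
  have c2 := cnt_mono (f := f₁) (f' := f'') m2 m5
  have c3 := ccnt_mono m3
  unfold tot at hmax
  exact ⟨ccnt_rigid m3 (by omega), by omega, by omega⟩

end

variable [∀ τ, FiniteDimensional ℝ (V τ)]

section

variable {f f₁ : Ph N V → Ph N V} {x x₁ : ℝ → Ph N V} {T δ ρ T₁ t₀ : ℝ}

/-- at a maximiser of the total count the cross relations are balanced -/
lemma cross_match [∀ τ, Nontrivial (V τ)] (hx : Continuous x) (hf : ContDiff ℝ 1 f)
    (hM : TMx f x T δ ρ f₁ x₁ T₁ t₀) (hρ0 : 0 ≤ ρ) (hρ1 : ρ < 1) :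
    (∀ a b, st (x₁ t₀) a = st (x₁ t₀) b → Match (x₁ t₀) a b) ∧
    (∀ a b, st (x₁ (t₀ + ρ * T₁)) a = st (x₁ (t₀ + ρ * T₁)) b →
      Match (x₁ (t₀ + ρ * T₁)) a b) ∧
    (∀ a b, st (x₁ t₀) a = st (x₁ (t₀ + ρ * T₁)) b → ∃ β : InputIso N a b, ∀ e : N.In a,
      st (x₁ t₀) (N.tail e.1) = st (x₁ (t₀ + ρ * T₁)) (N.tail (β.toEquiv e).1)) := by
  obtain ⟨η, hη, hst⟩ := stab hM hρ0 hρ1
  have hT := hM.cls.orb.pos
  have hm1 := hM.mem.1
  have hm2 := hM.mem.2
  have hρT1 : 0 ≤ ρ * T₁ := mul_nonneg hρ0 hT.le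
  have hring : (1 - ρ) * T₁ = T₁ - ρ * T₁ := by ring
  have hL0 : LMx f x T δ f₁ x₁ T₁ t₀ η (T₁ + 2) :=
    { cls := hM.cls
      mem := ⟨hm1, by linarith⟩
      pos := hη
      max := fun f'' x'' T'' t'' h1 h2 h3 h4 h5 => (hst f'' x'' T'' t'' h1 h2 h3 h4 h5).2.1 }
  have hL1 : LMx f x T δ f₁ x₁ T₁ (t₀ + ρ * T₁) (η / 2) (T₁ + 2) :=
    { cls := hM.cls
      mem := ⟨by linarith, by linarith⟩
      pos := half_pos hη
      max := fun f'' x'' T'' t'' h1 h2 h3 h4 h5 => by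
        have hη2 : η / 2 < η := half_lt_self hη
        have h6 : |(t'' - ρ * T'') - t₀| < η := by
          have e1 : (t'' - ρ * T'') - t₀ = (t'' - (t₀ + ρ * T₁)) - ρ * (T'' - T₁) := by ring
          rw [e1]
          have e2 : |ρ * (T'' - T₁)| ≤ |T'' - T₁| := by
            rw [abs_mul, abs_of_nonneg hρ0]
            exact mul_le_of_le_one_left (abs_nonneg _) hρ1.le
          have e3 := abs_sub (t'' - (t₀ + ρ * T₁)) (ρ * (T'' - T₁))
          linarith
        have h7 := (hst f'' x'' T'' (t'' - ρ * T'') h1 h6 (h3.trans hη2)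
          (fun z => (h4 z).trans hη2) (fun t ht => (h5 t ht).trans hη2)).2.2
        rw [sub_add_cancel] at h7
        exact h7 }
  have hA := match_all hx hL0 hf
  refine ⟨hA, match_all hx hL1 hf, fun a b hab => ?_⟩
  -- the relation persists
  have hself : ∀ t, |t - t₀| < η → ∀ a b, st (x₁ t) a = st (x₁ (t + ρ * T₁)) b ↔
      st (x₁ t₀) a = st (x₁ (t₀ + ρ * T₁)) b := fun t ht =>
    (hst f₁ x₁ T₁ t hM.cls ht (by simpa using hη) (fun z => by simpa using hη)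
      (fun t _ => by simpa using hη)).1
  have hfamrel : ∀ t, |t - t₀| < η → ∀ h : N.sp a = N.sp b,
      ∀ g : Ph N V → Ph N V, Pert g → ∀ (y : ℝ → ℝ → Ph N V) (τ : ℝ → ℝ),
      Fam2 f₁ x₁ T₁ g y τ →
      ∀ᶠ ε in 𝓝 (0:ℝ), ∀ᶠ s in 𝓝 t, cst h (y ε s a) = y ε (s + ρ * τ ε) b := by
    intro t ht h g hg y τ hF
    have k4 : ∀ᶠ ε : ℝ in 𝓝 (0:ℝ), |τ ε - T₁| < η := by
      have h1 : ContinuousAt (fun ε => |τ ε - T₁|) 0 := (hF.τc.sub continuousAt_const).abs
      refine h1.eventually (gt_mem_nhds ?_)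
      simp only [hF.τ0, sub_self, abs_zero]
      exact hη
    have k5 : ∀ᶠ ε : ℝ in 𝓝 (0:ℝ), ∀ z, ‖(f₁ z + ε • g z) - f₁ z‖ < η := by
      obtain ⟨B, hB⟩ := hg.bdd
      have h1 : Tendsto (fun ε : ℝ => |ε| * (B:ℝ)) (𝓝 0) (𝓝 (|(0:ℝ)| * B)) :=
        (continuous_abs.mul continuous_const).tendsto 0
      rw [abs_zero, zero_mul] at h1
      filter_upwards [h1.eventually (gt_mem_nhds hη)] with ε h2 z
      rw [add_sub_cancel_left, norm_smul, Real.norm_eq_abs]
      exact (mul_le_mul_of_nonneg_left (hB z) (abs_nonneg _)).trans_lt h2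
    have k6 : ∀ᶠ ε : ℝ in 𝓝 (0:ℝ), ∀ t ∈ Icc (-(T₁ + 2)) (T₁ + 2), ‖y ε t - x₁ t‖ < η := by
      refine (isCompact_Icc (a := -(T₁ + 2)) (b := T₁ + 2)).eventually_forall_of_forall_eventually
        (P := fun ε t => ‖y ε t - x₁ t‖ < η) ?_
      intro t ht
      have h1 : ContinuousAt (fun p : ℝ × ℝ => ‖y p.1 p.2 - x₁ p.2‖) (0, t) :=
        ((hF.yc t).sub (hM.cls.orb.continuous.continuousAt.comp continuousAt_snd)).norm
      refine h1.eventually (gt_mem_nhds ?_)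
      simp only [hF.y0, sub_self, norm_zero]
      exact hη
    filter_upwards [k4, k5, k6, cls_eventually hx hM.cls hg hF] with ε h1 h2 h3 h4
    have h5 : ∀ᶠ s in 𝓝 t, |s - t₀| < η := by
      have h6 : ContinuousAt (fun s => |s - t₀|) t :=
        (continuousAt_id.sub continuousAt_const).abs
      exact h6.eventually (gt_mem_nhds ht)
    filter_upwards [h5] with s hs
    exact (st_of h).1 (((hst _ _ _ s h4 hs h1 h2 h3).1 a b).2 hab)
  have hsp : N.sp a = N.sp b := (st_iff.1 hab).1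
  obtain ⟨η₂, hη₂⟩ : ∃ η₂, η₂ = min η (min t₀ ((1 - ρ) * T₁ - t₀)) := ⟨_, rfl⟩
  have hη₂0 : 0 < η₂ := by rw [hη₂]; exact lt_min hη (lt_min hm1 (by linarith))
  have j1 : η₂ ≤ η := by rw [hη₂]; exact min_le_left _ _
  have j2 : η₂ ≤ t₀ := by rw [hη₂]; exact (min_le_right _ _).trans (min_le_left _ _)
  have j3 : η₂ ≤ (1 - ρ) * T₁ - t₀ := by
    rw [hη₂]; exact (min_le_right _ _).trans (min_le_right _ _)
  by_cases hall : ∀ t ∈ Ioo (t₀ - η₂) (t₀ + η₂),
      ¬ NullHit x₁ T₁ a (tup V (InputIso.refl a) (x₁ t))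
  · -- nodes at rest
    have hra := (rest_of_not_null hη₂0 hM.cls.orb a hall).1
    have hca := rest_forever hx hL0 hf a hra
    have hcb : f₁ (x₁ (t₀ + ρ * T₁)) b = 0 := by
      have hev : ∀ᶠ s in 𝓝 t₀, x₁ (s + ρ * T₁) b = x₁ (t₀ + ρ * T₁) b := by
        filter_upwards [Ioo_mem_nhds (show t₀ - η < t₀ by linarith)
          (show t₀ < t₀ + η by linarith)] with s hs
        have h1 : |s - t₀| < η := by rw [abs_lt]; constructor <;> linarith [hs.1, hs.2]
        have h2 := (st_of hsp).1 ((hself s h1 a b).2 hab)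
        have h3 := (st_of hsp).1 hab
        rw [← h2, ← h3, hca s]
      have d1 := ((hM.cls.orb.sol (t₀ + ρ * T₁)).comp_add_const t₀ (ρ * T₁))
      have d2 := (hasDerivAt_pi.1 d1) b
      have d3 : HasDerivAt (fun _ : ℝ => x₁ (t₀ + ρ * T₁) b) 0 t₀ := hasDerivAt_const _ _
      exact d2.unique (d3.congr_of_eventuallyEq hev)
    have hcb' := rest_forever hx hL1 hf b hcb
    have hb0 : x₁ t₀ b = x₁ (t₀ + ρ * T₁) b := hcb' t₀
    have hst0 : st (x₁ t₀) a = st (x₁ t₀) b := by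
      rw [st_of hsp, hb0]
      exact (st_of hsp).1 hab
    obtain ⟨β, hβ⟩ := hA a b hst0
    refine ⟨β, fun e => ?_⟩
    rw [hβ e, st_of rfl, cst_self]
    -- `b` is at rest at `t₀`, hence its inputs are at rest
    have hrb : f₁ (x₁ t₀) b = 0 := by
      have d1 := (hasDerivAt_pi.1 (hM.cls.orb.sol t₀)) b
      have d3 : HasDerivAt (fun _ : ℝ => x₁ (t₀ + ρ * T₁) b) 0 t₀ := hasDerivAt_const _ _
      exact d1.unique (d3.congr_of_eventuallyEq (Eventually.of_forall hcb'))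
    have hrt := rest_closed hx hL0 hf b hrb (β.toEquiv e)
    exact (rest_forever hx hL0 hf _ hrt (t₀ + ρ * T₁)).symm
  · push Not at hall
    obtain ⟨t, ht, hnull⟩ := hall
    have htη : |t - t₀| < η := by
      rw [abs_lt]; constructor <;> linarith [ht.1, ht.2]
    have ht0 : t ∈ Icc 0 T₁ := ⟨by linarith [ht.1], by linarith [ht.2]⟩
    have ht1 : t + ρ * T₁ ∈ Icc 0 T₁ := ⟨by linarith [ht.1], by linarith [ht.2]⟩
    by_contra hno'
    refine phase_kick2 (ρ := ρ) hM.cls.adm.smooth hM.cls.orb hM.cls.nd ht0 ht1 a b hsp ?_ hnull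
      (hfamrel t htη hsp)
    intro β hβ
    rw [tup_eq_iff] at hβ
    exact hno' ⟨β, fun e => (hself t htη _ _).1 (hβ.2 e).symm⟩

end

end

end Pool.Agent.H324.RP
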